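import Pool.Agent.V11268.PerSpec

set_option autoImplicit false

/-!
# Integral powers of `1/π`, mixed monomials, and linear forms in periods of one variable

`Forms γ` (from the starting library) is the space of all linear combinations, with algebraic
coefficients, of the integrals of rational functions of one variable with algebraic coefficients
over compact intervals with algebraic end points, of all logarithms of algebraic numbers, and of
finitely many arbitrary complex numbers `γ 0, ..., γ (g - 1)` (for instance any `g` periods).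

The bound in (1), (2) is the number `x` with `m x ≤ (m + 1) (m + g)` for all `m`; by (0) it is at
most `2 g + 2` and at most `g + 2 √g + 2`.
-/

namespace Pool.Agent.Results.MP_725b61_nt.BoundedDifferences

open Pool.Agent.TH379.PER (Forms)
open scoped Pointwise

/-- (0) closed forms of the bound, (1) pairs of powers, (2) and (3) finite sets of exponents with
few differences or few sums, (4) powers of `1/π` in progression, (5) the mixed monomials in `e`,
`1/π` and Euler's constant -/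
theorem result (g : ℕ) (γ : Fin g → ℂ) :
    (∀ x : ℕ, (∀ m : ℕ, m * x ≤ (m + 1) * (m + g)) →
      x ≤ 2 * g + 2 ∧ (x : ℝ) ≤ g + 2 * Real.sqrt g + 2) ∧
    (∀ t : ℂ, Transcendental ℚ t → ∀ z₀ : ℂ, z₀ ≠ 0 → ∀ h : ℤ, h ≠ 0 →
      {n : ℤ | z₀ * t ^ n ∈ Forms γ ∧ z₀ * t ^ (n + h) ∈ Forms γ}.Finite ∧
      ∀ m : ℕ, m * {n : ℤ | z₀ * t ^ n ∈ Forms γ ∧ z₀ * t ^ (n + h) ∈ Forms γ}.ncard ≤
        (m + 1) * (m + g)) ∧
    (∀ t : ℂ, Transcendental ℚ t → ∀ z₀ : ℂ, z₀ ≠ 0 → ∀ (B : Finset ℤ) (m : ℕ),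
      m * ({b : ℤ | b ∈ B ∧ z₀ * t ^ b ∈ Forms γ}.ncard *
        ({b : ℤ | b ∈ B ∧ z₀ * t ^ b ∈ Forms γ}.ncard - 1)) ≤
        (m + 1) * (m + g) * ((B - B).card - 1)) ∧
    (∀ t : ℂ, Transcendental ℚ t → ∀ z₀ : ℂ, z₀ ≠ 0 → ∀ B : Finset ℤ,
      ({b : ℤ | b ∈ B ∧ z₀ * t ^ b ∈ Forms γ}.ncard : ℝ) ≤
        2 * Real.sqrt ((B + B).card) + g) ∧
    (∀ h : ℕ, 1 ≤ h → ∀ m K : ℕ, (m + 1) * (m + g) < m * K →
      ∃ k : ℕ, 1 ≤ k ∧ k ≤ K ∧ (1 / (Real.pi : ℂ)) ^ (k * h) ∉ Forms γ) ∧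
    (∀ A B C : Finset ℤ,
      ({p : ℤ × ℤ × ℤ | p.1 ∈ A ∧ p.2.1 ∈ B ∧ p.2.2 ∈ C ∧
        Complex.exp 1 ^ p.1 * ((1 / (Real.pi : ℂ)) ^ p.2.1 *
          (Real.eulerMascheroniConstant : ℂ) ^ p.2.2) ∈ Forms γ}.ncard : ℝ) ≤
        B.card * C.card * (2 * Real.sqrt ((A + A).card) + g) ∧
      ({p : ℤ × ℤ × ℤ | p.1 ∈ B ∧ p.2.1 ∈ A ∧ p.2.2 ∈ C ∧
        (1 / (Real.pi : ℂ)) ^ p.1 * (Complex.exp 1 ^ p.2.1 *
          (Real.eulerMascheroniConstant : ℂ) ^ p.2.2) ∈ Forms γ}.ncard : ℝ) ≤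
        A.card * C.card * (2 * Real.sqrt ((B + B).card) + g)) := by
  have hpi := V11268.PerG.inv_pi_transc
  have hpi0 := V11268.PerG.inv_pi_ne
  refine ⟨fun x hx => V11268.PerG.closed_form hx,
    fun t ht z₀ hz h h0 => V11268.PerG.pow_few γ hz ht h0,
    fun t ht z₀ hz B m => V11268.PerG.pow_sidon γ hz ht B m,
    fun t ht z₀ hz B => V11268.PerG.pow_doubling γ hz ht B, ?_,
    fun A B C => ⟨V11268.PerG.mixed γ
        Pool.Agent.H340R2.LW.transcendental_exp_one_complex hpi0 V11268.PerG.euler_ne A B C,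
      V11268.PerG.mixed γ hpi (Complex.exp_ne_zero 1) V11268.PerG.euler_ne B A C⟩⟩
  intro h hh m K hK
  by_contra hcon
  push Not at hcon
  have hh' : (h : ℤ) ≠ 0 := by omega
  obtain ⟨hfin, hc⟩ := V11268.PerG.pow_few γ one_ne_zero hpi hh'
  have hall : ∀ k : ℕ, k ≤ K → (1 / (Real.pi : ℂ)) ^ (k * h) ∈ Forms γ := by
    intro k hk
    rcases Nat.eq_zero_or_pos k with h0 | h0
    · subst h0
      rw [Nat.zero_mul, pow_zero]
      exact V11268.PerG.one_mem_Forms γ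
    · exact hcon k h0 hk
  have h1 : ((Finset.range K).image (fun k : ℕ => ((k * h : ℕ) : ℤ)) : Set ℤ) ⊆
      {n : ℤ | 1 * (1 / (Real.pi : ℂ)) ^ n ∈ Forms γ ∧
        1 * (1 / (Real.pi : ℂ)) ^ (n + (h : ℤ)) ∈ Forms γ} := by
    intro z hz
    rw [Finset.coe_image] at hz
    obtain ⟨k, hk, rfl⟩ := hz
    have hk' : k < K := Finset.mem_range.mp (Finset.mem_coe.mp hk)
    refine ⟨?_, ?_⟩
    · rw [one_mul, zpow_natCast]
      exact hall k hk'.le
    · have h2 : ((k * h : ℕ) : ℤ) + (h : ℤ) = (((k + 1) * h : ℕ) : ℤ) := by push_cast; ring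
      rw [h2, one_mul, zpow_natCast]
      exact hall (k + 1) hk'
  have h4 := Set.ncard_le_ncard h1 hfin
  rw [Set.ncard_coe_finset, Finset.card_image_of_injective _ (fun a b hab => by
    have h5 : a * h = b * h := by exact_mod_cast hab
    exact Nat.eq_of_mul_eq_mul_right hh h5), Finset.card_range] at h4
  have h5 := (Nat.mul_le_mul_left m h4).trans (hc m)
  omega

end Pool.Agent.Results.MP_725b61_nt.BoundedDifferences
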