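import Pool.Agent.Helper264.NT.NearPV
import Pool.Agent.Helper264.NT.InvPi

/-!
# Near almost every point `1 / π` is not a period of the motives generated by the first cohomology of the fibres

A family (`Family X n`) is an algebraic connection `c ∂_i Y = Y B_i` over the affine space with coordinates `x_i`, `i ∈ X`, with
a matrix `Y` of size `2 n` of analytic solutions on a nonempty connected open set `U` such that `Yᵀ J Y = 2 π i J`, `J` the
standard alternating matrix: for example the matrix of the periods `∫_{γ_a} ω_b` of a family of curves of genus `n` (or of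
`n`-dimensional abelian varieties) over an open part of the affine space, for a symplectic basis `γ_a` of the homology and a
symplectic basis `ω_b` of the algebraic de Rham cohomology (Legendre's relation). We assume that the monodromy is as large as
possible (`Big`): every symplectic matrix is in the identity component of the Galois group, i.e. the monodromy group is dense
in the symplectic group.

Let `F_j`, `j` in a finite set, be such families, `X_{j,s}` the fibres. The effective periods of the motives generated by the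
`H¹(X_{j,s_j})` for a tuple `s` of algebraic points (for instance all periods of the products of the curves `X_{j,s_j}`) are the
polynomials with algebraic coefficients in the entries of the matrices `Y_j(s_j)`. We prove that `1/π` is not such a period, in
bounded degree and height, for ALL tuples `s` near almost every tuple `z`: there is a set `E` in `ℂ^d`, `d` the number of
parameters, of Hausdorff dimension at most `2 d - 2` such that for all `z` outside of `E`, all `w > 0` (arbitrarily small), all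
number fields `K` and all `k`, for large `T`, at ALL tuples `s` with coordinates in `K` of height at most `T` at distance at
most `T ^ (-w)` from `z`, no polynomial with integral coefficients in `K` of partial degrees at most `k` and of size at most
`T ^ k` has at the periods `Y_j(s_j)` the value `c / π`, `c ∈ K` a nonzero integer of size at most `T ^ k`. For real tuples `z`
the same holds outside of a set in `ℝ^d` of dimension at most `d - 1`.

Moreover let `θ_0, θ_1, …` be any complex numbers, for instance `e`, Euler's constant `γ` and their powers and products. At all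
these tuples `s` a combination `∑ c_i θ_i`, `i < k`, `c_i` integers of `K` of size at most `T ^ k`, can be such a polynomial in
the periods only if it is a polynomial in `2 π i` with coefficients in `K`. (The number `2 π i` is a period of the fibres by
Legendre's relation.) So `e` and `γ` are not periods of this kind unless they are algebraic over `ℚ(π)`.
-/

set_option autoImplicit false

open Filter NumberField
open scoped ENNReal

namespace Pool.Agent.Results.MP_725b61_nt.InversePiNearEveryPoint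

/-- the index set of the matrices of size `2 n` -/
abbrev Ix (n : ℕ) : Type := Fin n ⊕ Fin n

/-- an algebraic connection on the affine space `ℂ ^ X` with a fundamental matrix `Y` of analytic solutions on `U` which
satisfies Legendre's relation -/
structure Family (X : Type) [Fintype X] [DecidableEq X] (n : ℕ) where
  /-- a nonempty connected open set -/
  U : Set (X → ℂ)
  isOpen : IsOpen U
  connected : IsPreconnected U
  nonempty : U.Nonempty
  /-- the matrix of the periods -/
  Y : (X → ℂ) → Matrix (Ix n) (Ix n) ℂ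
  analytic : ∀ a b, AnalyticOnNhd ℂ (fun x => Y x a b) U
  /-- the common denominator of the connection -/
  c : MvPolynomial X ℂ
  c_ne : c ≠ 0
  /-- the numerators -/
  B : X → Matrix (Ix n) (Ix n) (MvPolynomial X ℂ)
  /-- `c ∂_i Y = Y B_i` -/
  eqn : ∀ x ∈ U, ∀ i a b, MvPolynomial.eval x c * fderiv ℂ (fun x => Y x a b) x (Pi.single i 1) =
    ∑ e, Y x a e * MvPolynomial.eval x (B i e b)
  /-- Legendre's relation -/
  legendre : ∀ x ∈ U, (Y x).transpose * Matrix.J (Fin n) ℂ * Y x = (2 * (Real.pi : ℂ) * Complex.I) • Matrix.J (Fin n) ℂ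

section
variable {X : Type} [Fintype X] [DecidableEq X] {n : ℕ}

/-- all polynomial relations between the entries of `Y` over `ℂ[x]` are relations between the entries of `g Y` -/
def Preserves (F : Family X n) (g : Matrix (Ix n) (Ix n) ℂ) : Prop :=
  ∀ p : MvPolynomial (Ix n × Ix n) (MvPolynomial X ℂ),
    (∀ x ∈ F.U, MvPolynomial.eval₂ (MvPolynomial.eval x) (fun v => F.Y x v.1 v.2) p = 0) →
    ∀ x ∈ F.U, MvPolynomial.eval₂ (MvPolynomial.eval x) (fun v => (g * F.Y x) v.1 v.2) p = 0

/-- the Galois group -/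
def Family.galois (F : Family X n) : Subgroup (GL (Ix n) ℂ) where
  carrier := {g | Preserves F (g : Matrix (Ix n) (Ix n) ℂ)}
  mul_mem' := fun ha hb => (Pool.Agent.V11273.PV.Gal F.U F.Y).mul_mem' ha hb
  one_mem' := (Pool.Agent.V11273.PV.Gal F.U F.Y).one_mem'
  inv_mem' := fun ha => (Pool.Agent.V11273.PV.Gal F.U F.Y).inv_mem' ha

/-- the subgroup `H` of `G` is defined by polynomial equations -/
def ClosedIn {G : Subgroup (GL (Ix n) ℂ)} (H : Subgroup G) : Prop :=
  ∃ E : Set (MvPolynomial (Ix n × Ix n) ℂ), ∀ h : G, h ∈ H ↔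
    ∀ e ∈ E, MvPolynomial.eval (fun v => ((h : GL (Ix n) ℂ) : Matrix (Ix n) (Ix n) ℂ) v.1 v.2) e = 0

/-- the elements of `G` which lie in all closed subgroups of finite index of `G` -/
def identityComponent (G : Subgroup (GL (Ix n) ℂ)) : Set (GL (Ix n) ℂ) :=
  {g | ∃ hg : g ∈ G, ∀ H : Subgroup G, H.FiniteIndex → ClosedIn H → (⟨g, hg⟩ : G) ∈ H}

/-- every symplectic matrix is in the identity component of the Galois group: the monodromy is Zariski dense in the
symplectic group -/
def Big (F : Family X n) : Prop :=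
  ∀ g : GL (Ix n) ℂ, (g : Matrix (Ix n) (Ix n) ℂ).transpose * Matrix.J (Fin n) ℂ * (g : Matrix (Ix n) (Ix n) ℂ) =
    Matrix.J (Fin n) ℂ → g ∈ identityComponent F.galois

end

/-- quotients of two integers of `K`, all conjugates of which are at most `T` -/
def HeightLe (K : Type) [Field K] [NumberField K] (T : ℝ) (x : K) : Prop :=
  ∃ a b : 𝓞 K, b ≠ 0 ∧ house (a : K) ≤ T ∧ house (b : K) ≤ T ∧ x = a / b

section
variable {κ : Type} [Fintype κ] [DecidableEq κ] {X : κ → Type} [∀ j, Fintype (X j)] [∀ j, DecidableEq (X j)] {n : κ → ℕ}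

/-- the tuples of points of the domains of the families -/
def domain (F : ∀ j, Family (X j) (n j)) : Set ((Σ j, X j) → ℂ) := {z | ∀ j, (fun i => z ⟨j, i⟩) ∈ (F j).U}

/-- the entry `v.2` of the period matrix of the family number `v.1` at the component of the tuple `z` of this number -/
def entry (F : ∀ j, Family (X j) (n j)) (z : (Σ j, X j) → ℂ) (v : Σ j, Ix (n j) × Ix (n j)) : ℂ :=
  (F v.1).Y (fun i => z ⟨v.1, i⟩) v.2.1 v.2.2

/-- At all tuples `s` with coordinates in the number field `K` (embedded into `ℂ` by `io`) of height at most `T` and with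
`|s i - z i| ≤ T ^ (-w)` for all `i`, let `p` be the value at the periods `entry F s` of any polynomial with coefficients in
the integers of `K`, of partial degrees at most `k`, all conjugates of its coefficients being at most `T ^ k`. Then `p` is not
`c / π` for a nonzero integer `c` of `K` all conjugates of which are at most `T ^ k`; and if `p = ∑ c i θ i`, `i < k`, for such
integers `c i`, then `p` is a polynomial in `2 π i` with coefficients in `K`. -/
def GoodNear (F : ∀ j, Family (X j) (n j)) (θ : ℕ → ℂ) (z : (Σ j, X j) → ℂ) (w : ℝ) (K : Type) [Field K] [NumberField K]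
    (io : K →+* ℂ) (k : ℕ) (T : ℝ) : Prop :=
  ∀ s : (Σ j, X j) → K, (∀ i, HeightLe K T (s i)) → (∀ i, ‖io (s i) - z i‖ ≤ T ^ (-w)) →
    ∀ P : MvPolynomial (Σ j, Ix (n j) × Ix (n j)) (𝓞 K), (∀ v, P.degreeOf v ≤ k) →
      (∀ m (φ : K →+* ℂ), ‖φ ((P.coeff m : 𝓞 K) : K)‖ ≤ T ^ (k : ℝ)) →
      (∀ c : 𝓞 K, c ≠ 0 → (∀ φ : K →+* ℂ, ‖φ (c : K)‖ ≤ T ^ (k : ℝ)) →
        MvPolynomial.eval₂ (io.comp (algebraMap (𝓞 K) K)) (entry F fun i => io (s i)) P ≠ io (c : K) / (Real.pi : ℂ)) ∧
      ∀ c : Fin k → 𝓞 K, (∀ i (φ : K →+* ℂ), ‖φ (c i : K)‖ ≤ T ^ (k : ℝ)) →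
        MvPolynomial.eval₂ (io.comp (algebraMap (𝓞 K) K)) (entry F fun i => io (s i)) P =
          ∑ i : Fin k, io (c i : K) * θ i →
        ∃ R : Polynomial K, ∑ i : Fin k, io (c i : K) * θ i = R.eval₂ io (2 * (Real.pi : ℂ) * Complex.I)

/-- Legendre's relation: the matrices are invertible -/
lemma det_ne {X : Type} [Fintype X] [DecidableEq X] {n : ℕ} (F : Family X n) (x : X → ℂ) (hx : x ∈ F.U) :
    (F.Y x).det ≠ 0 := by
  intro h0
  have h1 := congrArg Matrix.det (F.legendre x hx)
  rw [Matrix.det_mul, Matrix.det_mul, h0, mul_zero, Matrix.det_smul] at h1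
  have h2 : (Matrix.J (Fin n) ℂ).det ≠ 0 := by
    have h3 := Matrix.isUnit_det_J (l := Fin n) (R := ℂ)
    exact h3.ne_zero
  have h4 : (2 * (Real.pi : ℂ) * Complex.I) ^ Fintype.card (Ix n) ≠ 0 := pow_ne_zero _ Complex.two_pi_I_ne_zero
  exact mul_ne_zero h4 h2 h1.symm

lemma covers [Nonempty (Σ j, X j)] (F : ∀ j, Family (X j) (n j)) :
    Pool.Agent.Helper264.NT.FixCov (Pool.Agent.V11273.PV.UU fun j => (F j).U)
      (Pool.Agent.V11273.PV.fE fun j => (F j).Y)
      (Pool.Agent.V11273.PV.Bad3 (fun j => (F j).U) fun j => (F j).Y) :=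
  Pool.Agent.Helper264.NT.fix3 (U := fun j => (F j).U) (Y := fun j => (F j).Y) (fun j => (F j).connected)
    (fun j => (F j).isOpen) (fun j => (F j).nonempty) (fun j => (F j).analytic) (fun j => det_ne (F j))
    (fun j => (F j).c_ne) (fun j => (F j).eqn)

/-- the sequence `1, 1/π, θ_0, θ_1, …` -/
noncomputable def xi (θ : ℕ → ℂ) : ℕ → ℂ
  | 0 => 1
  | 1 => 1 / (Real.pi : ℂ)
  | (i + 2) => θ i

lemma degreeOf_map_le' {σ R S : Type} [CommSemiring R] [CommSemiring S] (g : R →+* S) (P : MvPolynomial σ R) (y : σ) :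
    (P.map g).degreeOf y ≤ P.degreeOf y := by
  classical
  rw [MvPolynomial.degreeOf_def, MvPolynomial.degreeOf_def]
  exact Multiset.count_le_of_le y MvPolynomial.degrees_map_le

/-- the main step: one point -/
lemma step (F : ∀ j, Family (X j) (n j)) (hF : ∀ j, Big (F j)) {θ : ℕ → ℂ} {K : Type} [Field K] [NumberField K]
    {io : K →+* ℂ} {k : ℕ} {T : ℝ} (hT : 1 ≤ T) (s : (Σ j, X j) → K) (hs : (fun i => io (s i)) ∈ domain F)
    (h : ∀ P : MvPolynomial (Σ j, Ix (n j) × Ix (n j)) ℂ,
        Pool.Agent.V11273.PV.Small K io (k + 2) (Pool.Agent.H107.Per.res (xi θ) (k + 2)) T P →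
        MvPolynomial.eval (fun y => Pool.Agent.V11273.PV.fE (fun j => (F j).Y) y fun j => io (s j)) P = 0 →
          ¬ Pool.Agent.V11273.PV.Bad3 (fun j => (F j).U) (fun j => (F j).Y) (fun j => io (s j)) P)
    (P : MvPolynomial (Σ j, Ix (n j) × Ix (n j)) (𝓞 K)) (hdeg : ∀ v, P.degreeOf v ≤ k)
    (hcoef : ∀ m (φ : K →+* ℂ), ‖φ ((P.coeff m : 𝓞 K) : K)‖ ≤ T ^ (k : ℝ)) (a : 𝓞 K)
    (ha : ∀ φ : K →+* ℂ, ‖φ (a : K)‖ ≤ T ^ (k : ℝ)) (b : Fin k → 𝓞 K)
    (hb : ∀ i (φ : K →+* ℂ), ‖φ (b i : K)‖ ≤ T ^ (k : ℝ))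
    (hv : MvPolynomial.eval₂ (io.comp (algebraMap (𝓞 K) K)) (entry F fun i => io (s i)) P =
      io (a : K) / (Real.pi : ℂ) + ∑ i : Fin k, io (b i : K) * θ i) :
    ∃ R : Polynomial K, io (a : K) / (Real.pi : ℂ) + ∑ i : Fin k, io (b i : K) * θ i =
      R.eval₂ io (2 * (Real.pi : ℂ) * Complex.I) := by
  classical
  set v : ℂ := io (a : K) / (Real.pi : ℂ) + ∑ i : Fin k, io (b i : K) * θ i with hvdef
  set io' : 𝓞 K →+* ℂ := io.comp (algebraMap (𝓞 K) K) with hio'
  set P' : MvPolynomial (Σ j, Ix (n j) × Ix (n j)) ℂ := P.map io' - MvPolynomial.C v with hP'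
  have hTk : ∀ x : ℝ, x ≤ T ^ (k : ℝ) → x ≤ T ^ ((k + 2 : ℕ) : ℝ) := fun x hx =>
    hx.trans (Real.rpow_le_rpow_of_exponent_le hT (by push_cast; linarith))
  have hTp : 0 ≤ T ^ ((k + 2 : ℕ) : ℝ) := Real.rpow_nonneg (by linarith) _
  have hsmall : Pool.Agent.V11273.PV.Small K io (k + 2) (Pool.Agent.H107.Per.res (xi θ) (k + 2)) T P' := by
    refine ⟨fun y => ?_, fun m => ?_⟩
    · refine (MvPolynomial.degreeOf_sub_le _ _ _).trans (max_le ?_ ?_)
      · exact (degreeOf_map_le' io' P y).trans ((hdeg y).trans (Nat.le_add_right _ _))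
      · rw [MvPolynomial.degreeOf_C]
        exact Nat.zero_le _
    · let c' : Fin (k + 2) → 𝓞 K := Fin.cons (P.coeff m) (Fin.cons (if m = 0 then -a else 0)
        (fun i => if m = 0 then -(b i) else 0))
      refine ⟨c', fun i φ => ?_, ?_⟩
      · refine Fin.cases ?_ (fun i => Fin.cases ?_ (fun i => ?_) i) i
        · exact hTk _ (hcoef m φ)
        · change ‖φ (((if m = 0 then -a else 0 : 𝓞 K)) : K)‖ ≤ _
          split_ifs
          · rw [RingOfIntegers.coe_eq_algebraMap, map_neg, map_neg, norm_neg]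
            exact hTk _ (ha φ)
          · simpa using hTp
        · change ‖φ (((if m = 0 then -(b i) else 0 : 𝓞 K)) : K)‖ ≤ _
          split_ifs
          · rw [RingOfIntegers.coe_eq_algebraMap, map_neg, map_neg, norm_neg]
            exact hTk _ (hb i φ)
          · simpa using hTp
      · rw [Fin.sum_univ_succ, Fin.sum_univ_succ]
        simp only [c', Fin.cons_zero, Fin.cons_succ]
        have e0 : Pool.Agent.H107.Per.res (xi θ) (k + 2) 0 = 1 := rfl
        have e1 : Pool.Agent.H107.Per.res (xi θ) (k + 2) (Fin.succ 0) = 1 / (Real.pi : ℂ) := rfl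
        have e2 : ∀ i : Fin k, Pool.Agent.H107.Per.res (xi θ) (k + 2) i.succ.succ = θ i := fun _ => rfl
        rw [e0, e1]
        simp only [e2]
        rw [hP', MvPolynomial.coeff_sub, MvPolynomial.coeff_map, MvPolynomial.coeff_C]
        by_cases hm : m = 0
        · subst hm
          simp only [if_true]
          rw [hvdef]
          simp only [RingOfIntegers.coe_eq_algebraMap, map_neg, mul_neg, Finset.sum_neg_distrib]
          rw [hio', RingHom.comp_apply]
          have h3 : ∑ i : Fin k, io ((algebraMap (𝓞 K) K) (b i)) * θ i =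
              ∑ i : Fin k, θ i * io ((algebraMap (𝓞 K) K) (b i)) := Finset.sum_congr rfl fun i _ => mul_comm _ _
          rw [h3]
          ring
        · simp only [hm, if_false, Ne.symm hm]
          simp [hio', RingOfIntegers.coe_eq_algebraMap]
  have hzero : MvPolynomial.eval (fun y => Pool.Agent.V11273.PV.fE (fun j => (F j).Y) y fun j => io (s j)) P' = 0 := by
    rw [hP', map_sub, MvPolynomial.eval_map, MvPolynomial.eval_C, sub_eq_zero]
    exact hv
  have hgood := h P' hsmall hzero
  obtain ⟨ρ, hρ⟩ : ∃ ρ : ℂ, ρ ^ 2 = 2 * (Real.pi : ℂ) * Complex.I := by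
    obtain ⟨ρ, hρ⟩ := IsAlgClosed.exists_pow_nat_eq (2 * (Real.pi : ℂ) * Complex.I) (n := 2) two_pos
    exact ⟨ρ, hρ⟩
  obtain ⟨Q, hQ⟩ := Pool.Agent.Helper264.NT.scalar_value io (fun y : Σ j, Ix (n j) × Ix (n j) => y.2.1 = y.2.2) P
  -- the value at scalar matrices
  have hval : ∀ r : ℂ, r ^ 2 = 2 * (Real.pi : ℂ) * Complex.I → Q.eval₂ io r = v := by
    intro r hr
    by_contra hne
    apply hgood
    have hr0 : r ≠ 0 := by
      intro h0
      rw [h0] at hr
      exact Complex.two_pi_I_ne_zero (by rw [← hr]; ring)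
    have hdet : ∀ j, (r • ((F j).Y (fun i => io (s ⟨j, i⟩)))⁻¹).det ≠ 0 := by
      intro j
      rw [Matrix.det_smul]
      refine mul_ne_zero (pow_ne_zero _ hr0) ?_
      have h1 : IsUnit ((F j).Y (fun i => io (s ⟨j, i⟩))).det := isUnit_iff_ne_zero.2 (det_ne (F j) _ (hs j))
      exact (Matrix.isUnit_nonsing_inv_det _ h1).ne_zero
    refine ⟨fun j => Matrix.GeneralLinearGroup.mkOfDetNeZero _ (hdet j), fun j => ?_, ?_⟩
    · refine hF j _ ?_
      change (r • ((F j).Y (fun i => io (s ⟨j, i⟩)))⁻¹).transpose * Matrix.J (Fin (n j)) ℂ *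
        (r • ((F j).Y (fun i => io (s ⟨j, i⟩)))⁻¹) = Matrix.J (Fin (n j)) ℂ
      have h1 : IsUnit ((F j).Y (fun i => io (s ⟨j, i⟩))).det := isUnit_iff_ne_zero.2 (det_ne (F j) _ (hs j))
      have h2 := (F j).legendre _ (hs j)
      set Z := (F j).Y (fun i => io (s ⟨j, i⟩)) with hZ
      rw [Matrix.transpose_smul, Matrix.smul_mul, Matrix.smul_mul, Matrix.mul_smul, smul_smul, ← pow_two, hr,
        Matrix.transpose_nonsing_inv]
      have h3 : (2 * (Real.pi : ℂ) * Complex.I) • (Z.transpose⁻¹ * Matrix.J (Fin (n j)) ℂ * Z⁻¹) =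
          Z.transpose⁻¹ * ((2 * (Real.pi : ℂ) * Complex.I) • Matrix.J (Fin (n j)) ℂ) * Z⁻¹ := by
        rw [Matrix.mul_smul, Matrix.smul_mul]
      have h1' : IsUnit Z.transpose.det := by rwa [Matrix.det_transpose]
      rw [h3, ← h2, ← Matrix.mul_assoc, ← Matrix.mul_assoc, Matrix.nonsing_inv_mul _ h1', Matrix.one_mul, Matrix.mul_assoc,
        Matrix.mul_nonsing_inv _ h1, Matrix.mul_one]
    · have h4 : (fun y : Σ j, Ix (n j) × Ix (n j) => ((((Matrix.GeneralLinearGroup.mkOfDetNeZero _ (hdet y.1) :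
          GL (Ix (n y.1)) ℂ) : Matrix (Ix (n y.1)) (Ix (n y.1)) ℂ) *
          (F y.1).Y (Pool.Agent.V11273.PV.pr (fun j => io (s j)) y.1)) y.2.1 y.2.2)) =
          fun y => if y.2.1 = y.2.2 then r else 0 := by
        funext y
        have h1 : IsUnit ((F y.1).Y (fun i => io (s ⟨y.1, i⟩))).det :=
          isUnit_iff_ne_zero.2 (det_ne (F y.1) _ (hs y.1))
        change ((r • ((F y.1).Y (fun i => io (s ⟨y.1, i⟩)))⁻¹) * (F y.1).Y (fun i => io (s ⟨y.1, i⟩))) y.2.1 y.2.2 = _
        rw [Matrix.smul_mul, Matrix.nonsing_inv_mul _ h1, Matrix.smul_apply, Matrix.one_apply, smul_eq_mul]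
        split_ifs <;> simp
      rw [h4, hP', map_sub, MvPolynomial.eval_map, MvPolynomial.eval_C, hQ, sub_ne_zero]
      exact hne
  exact Pool.Agent.Helper264.NT.even_value io Q hρ (hval ρ hρ) (hval (-ρ) (by rw [neg_sq, hρ]))

lemma good_of (F : ∀ j, Family (X j) (n j)) (hF : ∀ j, Big (F j)) {θ : ℕ → ℂ} {z : (Σ j, X j) → ℂ} {w : ℝ} {K : Type}
    [Field K] [NumberField K] {io : K →+* ℂ} {k : ℕ} {T : ℝ} (hT : 1 ≤ T)
    (hdom : ∀ s : (Σ j, X j) → K, (∀ i, ‖io (s i) - z i‖ ≤ T ^ (-w)) → (fun i => io (s i)) ∈ domain F)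
    (h : ∀ s : (Σ j, X j) → K, (∀ i, Y120.HtLe K T (s i)) →
      (∀ i, ‖io (s i) - z i‖ ≤ T ^ (-w)) → ∀ P : MvPolynomial (Σ j, Ix (n j) × Ix (n j)) ℂ,
        Pool.Agent.V11273.PV.Small K io (k + 2) (Pool.Agent.H107.Per.res (xi θ) (k + 2)) T P →
        MvPolynomial.eval (fun y => Pool.Agent.V11273.PV.fE (fun j => (F j).Y) y fun j => io (s j)) P = 0 →
          ¬ Pool.Agent.V11273.PV.Bad3 (fun j => (F j).U) (fun j => (F j).Y) (fun j => io (s j)) P) :
    GoodNear F θ z w K io k T := by
  intro s hs hz P hdeg hcoef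
  have hst := step F hF hT s (hdom s hz) (h s hs hz) P hdeg hcoef
  have hTp : 0 ≤ T ^ (k : ℝ) := Real.rpow_nonneg (by linarith) _
  refine ⟨fun c hc hcT heq => ?_, fun c hcT heq => ?_⟩
  · obtain ⟨R, hR⟩ := hst c hcT (fun _ => 0) (fun i φ => by simpa using hTp) (by simp [heq])
    have hc' : (c : K) ≠ 0 := by
      intro h0
      exact hc (RingOfIntegers.ext (by simpa using h0))
    refine Pool.Agent.Helper264.NT.div_pi_ne io R hc' ?_
    rw [← hR]
    simp
  · obtain ⟨R, hR⟩ := hst 0 (fun φ => by simpa using hTp) c hcT (by simp [heq])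
    refine ⟨R, ?_⟩
    rw [← hR]
    simp

/-- the distance `T ^ (-w)` is small for large `T` -/
lemma eventually_small {w : ℝ} (hw : 0 < w) {ε : ℝ} (hε : 0 < ε) : ∀ᶠ T : ℝ in atTop, T ^ (-w) < ε :=
  (tendsto_rpow_neg_atTop hw).eventually (gt_mem_nhds hε)

/-- **Theorem.** Let `F_j`, `j` in a finite set, be families with big monodromy, `d` the dimension of the product of their
bases, and `θ i` any complex numbers (for example the monomials in `e` and Euler's constant).
(1) There is a set `E` in `ℂ ^ d` of Hausdorff dimension at most `2 (d - 1)` such that for all `z` in the domain outside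
of `E`, all `w > 0`, all number fields `K ⊂ ℂ` and all `k`, the property `GoodNear F θ z w K k T` holds for all large `T`.
(2) There is a set `E` in `ℝ ^ d` of Hausdorff dimension at most `d - 1` such that for all real `z` in the domain outside
of `E`, all `w > 0`, all number fields `K ⊂ ℝ` and all `k`, the property `GoodNear F θ z w K k T` holds for all
large `T`. -/
theorem result [Nonempty (Σ j, X j)] (F : ∀ j, Family (X j) (n j)) (hF : ∀ j, Big (F j)) (θ : ℕ → ℂ) :
    (∃ E : Set ((Σ j, X j) → ℂ), dimH E ≤ ((2 * (Fintype.card (Σ j, X j) - 1) : ℕ) : ℝ≥0∞) ∧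
      ∀ z ∈ domain F, z ∉ E → ∀ w : ℝ, 0 < w → ∀ (K : IntermediateField ℚ ℂ) [NumberField K], ∀ k : ℕ,
        ∀ᶠ T : ℝ in atTop, GoodNear F θ z w K (algebraMap K ℂ) k T) ∧
    ∃ E : Set ((Σ j, X j) → ℝ), dimH E ≤ ((Fintype.card (Σ j, X j) - 1 : ℕ) : ℝ≥0∞) ∧
      ∀ z : (Σ j, X j) → ℝ, (fun i => (z i : ℂ)) ∈ domain F → z ∉ E → ∀ w : ℝ, 0 < w →
        ∀ (K : IntermediateField ℚ ℝ) [NumberField K], ∀ k : ℕ, ∀ᶠ T : ℝ in atTop,
          GoodNear F θ (fun i => (z i : ℂ)) w K (Complex.ofRealHom.comp (algebraMap K ℝ)) k T := by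
  have hopen : IsOpen (Pool.Agent.V11273.PV.UU fun j => (F j).U) :=
    Pool.Agent.V11273.PV.UU_open fun j => (F j).isOpen
  have hball : ∀ z ∈ domain F, ∀ w : ℝ, 0 < w → ∀ᶠ T : ℝ in atTop, ∀ y : (Σ j, X j) → ℂ,
      (∀ i, ‖y i - z i‖ ≤ T ^ (-w)) → y ∈ domain F := by
    intro z hz w hw
    obtain ⟨ε, hε, hεU⟩ := Metric.isOpen_iff.1 hopen z hz
    filter_upwards [eventually_small hw hε, eventually_ge_atTop (1 : ℝ)] with T hT hT1
    intro y hy
    refine hεU ?_
    rw [Metric.mem_ball]
    refine lt_of_le_of_lt ((dist_pi_le_iff (Real.rpow_nonneg (by linarith) _)).2 fun i => ?_) hT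
    rw [dist_eq_norm]
    exact hy i
  constructor
  · obtain ⟨E, hE, h⟩ := Pool.Agent.Helper264.NT.near_fix (𝕜 := ℂ) (RingHom.id ℂ) (fun _ => rfl)
      (fun P hP => ⟨P, hP, le_rfl, fun x hx => by simpa [MvPolynomial.aeval_eq_eval] using hx⟩) hopen (covers F) (xi θ)
    refine ⟨E, by simpa using hE, fun z hz hzE w hw K _ k => ?_⟩
    obtain ⟨T₁, hT₁⟩ := h z hzE hz K w (k + 2) hw
    filter_upwards [hball z hz w hw, eventually_ge_atTop (1 : ℝ), eventually_ge_atTop T₁] with T hT2 hT1 hT
    exact good_of F hF hT1 (fun s hsz => hT2 _ hsz) fun s hs hsz P hP h0 => hT₁ T hT s hs hsz P hP h0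
  · obtain ⟨E, hE, h⟩ := Pool.Agent.Helper264.NT.near_fix (𝕜 := ℝ) Complex.ofRealHom
      (fun a => (Complex.norm_real a).symm) (fun P hP => Pool.Agent.Helper264.NT.real_part P hP) hopen (covers F) (xi θ)
    refine ⟨E, by simpa using hE, fun z hz hzE w hw K _ k => ?_⟩
    obtain ⟨T₁, hT₁⟩ := h z hzE hz K w (k + 2) hw
    filter_upwards [hball _ hz w hw, eventually_ge_atTop (1 : ℝ), eventually_ge_atTop T₁] with T hT2 hT1 hT
    refine good_of F hF hT1 (fun s hsz => hT2 _ hsz) fun s hs hsz P hP h0 => ?_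
    refine hT₁ T hT s hs (fun i => ?_) P hP h0
    have h1 := hsz i
    change ‖((s i : ℝ) : ℂ) - (z i : ℂ)‖ ≤ _ at h1
    rwa [← Complex.ofReal_sub, Complex.norm_real] at h1

end

end Pool.Agent.Results.MP_725b61_nt.InversePiNearEveryPoint
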